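import Mathlib
import Pool.Agent.N870.EC.Stm
import Pool.Agent.Y728.RC.Se
import Pool.Agent.W672.FK.Lowf
import Pool.Agent.TH841.SH.SelR

/-!
# EC/SZ2: the Selmer groups of the curves with full rational 2-torsion
-/

set_option autoImplicit false

namespace Pool.Agent.N530.EC

open Pool.Agent.N870.EC

theorem t_SZ2 (h : S_SELGE) : S_SZ2 := by
  intro A B hA hB _ hAB
  have hA' : (A : ℤ) ≠ 0 := by
    have : A ≠ 0 := by omega
    exact_mod_cast this
  have hB' : (B : ℤ) ≠ 0 := by
    have : B ≠ 0 := by omega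
    exact_mod_cast this
  have hAB' : (A : ℤ) - B ≠ 0 := by
    intro h0
    apply hAB
    have : (A : ℤ) = B := by linarith
    exact_mod_cast this
  have hD : 4 * (cc A B).1 ^ 3 + 27 * (cc A B).2 ^ 2 ≠ 0 := by
    have e : 4 * (cc A B).1 ^ 3 + 27 * (cc A B).2 ^ 2 =
        -729 * ((A : ℤ) * B * (A - B)) ^ 2 := by
      simp only [cc]
      ring
    rw [e]
    exact mul_ne_zero (by norm_num) (pow_ne_zero 2 (mul_ne_zero (mul_ne_zero hA' hB') hAB'))
  have hT : Pool.Agent.W307.RT.HasT 2 (Pool.Agent.W307.RT.Sh (cc A B).1 (cc A B).2) := by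
    refine Pool.Agent.W672.FK.hasT2 (a := (A : ℚ)) (b := (B : ℚ)) ?_ ?_ (by exact_mod_cast hA')
      (by exact_mod_cast hB') (by exact_mod_cast hAB')
    · simp only [cc]
      push_cast
      ring
    · simp only [cc]
      push_cast
      ring
  obtain ⟨⟨hfin, hcard⟩, -⟩ := Pool.Agent.Y728.RC.sel_eq hD hT
  have hR : ∀ x : ℤ, x ^ 3 + (cc A B).1 * x + (cc A B).2 =
      (x - (-((A : ℤ) + B))) * (x - (2 * A - B)) * (x - (2 * B - A)) := by
    intro x
    simp only [cc]
    ring
  have h1 := h (Pool.Agent.W307.RT.Sh (cc A B).1 (cc A B).2) (-((A : ℤ) + B)) (2 * A - B)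
    (2 * B - A) (by
      intro h0
      apply hA'
      linarith) (by
      intro h0
      apply hB'
      linarith) (by
      intro h0
      apply hAB'
      linarith) (Pool.Agent.TH841.SH.isR_Sh hR) hfin
  rw [hcard] at h1
  have e1 : (2 * (A : ℤ) - B) - (-((A : ℤ) + B)) = 3 * A := by ring
  have e2 : (2 * (B : ℤ) - A) - (-((A : ℤ) + B)) = 3 * B := by ring
  rwa [e1, e2] at h1

end Pool.Agent.N530.EC
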